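import Mathlib
import Pool.Agent.R89.UP.Triv6

/-!
# The normalised `p`-adic regulator is trivial on average in families of CM fields

Let `d ≥ 1` and let `a_1, …, a_d` be distinct integers. For an integer `t` let `F = ℚ(θ)`,
`∏ (θ - a_i t) = 1`, a totally real field of degree `d`. There is a nonzero polynomial `Δ ∈ ℤ[T]`
such that for EVERY odd prime `p` and all `t` with `p ∤ Δ(t)`, up to at most `(d - 1) p` residue
classes modulo `p²`, Leopoldt's conjecture holds for `p` and `F`, the prime `p` is unramified in `F`
and the normalised `p`-adic regulator of `F` is trivial; the same holds for all CM fields `K` with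
maximal real subfield `F`.

Here the triviality is expressed by `RegulatorTrivial`: every unit which is congruent to `1` modulo
`p²` is the `p`-th power of a unit. If `p` is odd and unramified in `K`, then `U_K = 1 + p 𝓞_p` has no
torsion and `U_K ^ p = 1 + p² 𝓞_p`; so under Leopoldt's conjecture this says precisely that
`U_K / Ē_K` is torsion free, that is, `R_K = 1`.

Proof. Modulo `p²`, suitable powers of the units `θ - a_i t` are `1 + p E_i` and the `E_i` modulo `p`
are affine linear functions of `(t - t₀) / p` with independent leading coefficients, which are given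
by the logarithmic derivatives of the units with respect to `t`.
-/

set_option autoImplicit false

namespace Pool.Agent.Results.MP_1a2828_nt.TrivialOnAverage

open NumberField
open Pool.Agent.H637R2.Leo (Leopoldt)
open Pool.Agent.R89.UP (RegulatorTrivial)

/-- Let `d ≥ 1` and let `a_1, …, a_d` be distinct integers. There is a nonzero polynomial `Δ ∈ ℤ[T]`
such that for every odd prime `p` there is a set `B` of at most `(d - 1) p` residue classes modulo
`p²` with: for all `t ∈ ℤ`, `|t| ≥ 3`, with `p ∤ Δ(t)` and `t mod p² ∉ B`, every number field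
`F = ℚ(θ)`, `∏ (θ - a_i t) = 1`, is totally real of degree `d`, `p` is unramified in `F`, and
Leopoldt's conjecture for `p` and `RegulatorTrivial` hold for `F` and for every totally complex
quadratic extension `K` of `F`. -/
theorem result (d : ℕ) (hd : 1 ≤ d) (a : Fin d → ℤ) (ha : Function.Injective a) :
    ∃ Δ : Polynomial ℤ, Δ ≠ 0 ∧ ∀ (p : ℕ) [Fact p.Prime], p ≠ 2 → ∃ B : Finset (ZMod (p ^ 2)),
      B.card ≤ (d - 1) * p ∧ ∀ t : ℤ, 3 ≤ |t| → ¬ (p : ℤ) ∣ Δ.eval t →
      ((t : ℤ) : ZMod (p ^ 2)) ∉ B →
      ∀ (F : Type) [Field F] [NumberField F] (θ : F),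
        ∏ i, (θ - ((a i * t : ℤ) : F)) = 1 → IntermediateField.adjoin ℚ {θ} = ⊤ →
        Module.finrank ℚ F = d ∧ IsTotallyReal F ∧
        (Ideal.span {((p : ℕ) : 𝓞 F)}).IsRadical ∧ Leopoldt F p ∧ RegulatorTrivial F p ∧
        ∀ (K : Type) [Field K] [NumberField K] [IsTotallyComplex K] [Algebra F K],
          Module.finrank F K = 2 → Leopoldt K p ∧ RegulatorTrivial K p :=
  Pool.Agent.R89.UP.main_triv d hd a ha

end Pool.Agent.Results.MP_1a2828_nt.TrivialOnAverage
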